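import Pool.Agent.W737.SB.Defs

set_option autoImplicit false

open Metric Set Filter Topology

namespace Pool.Agent.W181.SB

open Pool.Agent.W737.SB

theorem isOpen_of_dat {n : ℕ} {Ω : Set (V n)} {ρ : V n → ℝ} (hD : Dat Ω ρ) : IsOpen Ω := by
  rw [hD.eq]
  exact isOpen_lt hD.smooth.continuous continuous_const

theorem t_bet : S_bet := by
  intro n Ω ρ p ν h r₀ C hD hH
  have hr0 := hH.r0
  have hC0 := hH.C0
  have hΩ : IsOpen Ω := isOpen_of_dat hD
  refine ⟨min (r₀ / 4) (r₀ / (4 * C)), lt_min (by positivity) (by positivity), ?_⟩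
  intro f F z hF hclose L hL hbd x hx
  by_contra hcon
  rw [not_le] at hcon
  have hx45 : ‖x‖ ≤ 4 / 5 := by linarith
  have hx1 : x ∈ ball (0 : V n) 1 := by
    rw [mem_ball_zero_iff]; linarith
  have hwΩ : f x ∈ Ω := hF.hfm hx1
  have hwp := hclose x hx45
  have hwp1 : ‖f x - p‖ < r₀ / 4 := lt_of_lt_of_le hwp (min_le_left _ _)
  have hwp2 : ‖f x - p‖ < r₀ / (4 * C) := lt_of_lt_of_le hwp (min_le_right _ _)
  have hwb : f x ∈ ball p r₀ := by
    rw [mem_ball_iff_norm]; linarith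
  have hpb : p ∈ ball p r₀ := mem_ball_self hr0
  have hρw : ρ (f x) < 0 := by
    have := hwΩ
    rw [hD.eq] at this
    exact this
  have hTpos : 0 < h (f x) := (hH.sign _ hwb).1 hρw
  have hhp : h p = 0 := (hH.zero _ hpb).1 hH.hp
  have hT4 : h (f x) < r₀ / 4 := by
    have h1 := hH.lip _ hwb _ hpb
    rw [hhp, sub_zero] at h1
    have h2 : C * ‖f x - p‖ < r₀ / 4 := by
      have := mul_lt_mul_of_pos_left hwp2 hC0
      have e : C * (r₀ / (4 * C)) = r₀ / 4 := by field_simp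
      linarith
    linarith [le_abs_self (h (f x))]
  set T := h (f x) with hTdef
  set w := f x with hwdef
  -- points on the segment
  have hseg : ∀ s : ℝ, 0 ≤ s → s ≤ T → w + (s : ℂ) • ν ∈ ball p r₀ := by
    intro s hs0 hsT
    rw [mem_ball_iff_norm]
    have e : w + (s : ℂ) • ν - p = (w - p) + (s : ℂ) • ν := by abel
    rw [e]
    refine lt_of_le_of_lt (norm_add_le _ _) ?_
    rw [norm_smul, hH.hν, mul_one, Complex.norm_real, Real.norm_eq_abs, abs_of_nonneg hs0]
    linarith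
  have hhs : ∀ s : ℝ, 0 ≤ s → s ≤ T → h (w + (s : ℂ) • ν) = T - s := by
    intro s hs0 hsT
    exact hH.shift w hwb s (hseg s hs0 hsT)
  have hsΩ : ∀ s : ℝ, 0 ≤ s → s < T → w + (s : ℂ) • ν ∈ Ω := by
    intro s hs0 hsT
    rw [hD.eq]
    refine (hH.sign _ (hseg s hs0 hsT.le)).2 ?_
    rw [hhs s hs0 hsT.le]; linarith
  -- the derivative
  have hder : ∀ s : ℝ, 0 ≤ s → s < T →
      HasDerivAt (fun s : ℝ => F (w + (s : ℂ) • ν) - x) (fderiv ℂ F (w + (s : ℂ) • ν) ν) s := by
    intro s hs0 hsT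
    have h1 : HasFDerivAt F (fderiv ℂ F (w + (s : ℂ) • ν)) (w + (s : ℂ) • ν) :=
      (hF.hF.differentiableAt (hΩ.mem_nhds (hsΩ s hs0 hsT))).hasFDerivAt
    have h2 := h1.restrictScalars ℝ
    have h3 : HasDerivAt (fun s : ℝ => w + (s : ℂ) • ν) ν s := by
      have h4 : HasDerivAt (fun s : ℝ => ((s : ℝ) : ℂ)) 1 s := Complex.ofRealCLM.hasDerivAt
      have h5 := (h4.smul_const ν).const_add w
      simpa using h5
    have h6 := h2.comp_hasDerivAt s h3
    exact h6.sub_const x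
  -- a slightly larger constant
  obtain ⟨L', hLL', hL'T⟩ : ∃ L' : ℝ, L < L' ∧ L' * T ≤ 1 / 5 := by
    refine ⟨1 / 5 / T, ?_, ?_⟩
    · rw [lt_div_iff₀ hTpos]; exact hcon
    · rw [div_mul_cancel₀ _ hTpos.ne']
  have hL'0 : 0 < L' := hL.trans hLL'
  have hbound : ∀ s1 : ℝ, 0 ≤ s1 → s1 < T → ‖F (w + (s1 : ℂ) • ν) - x‖ ≤ L' * s1 := by
    intro s1 hs10 hs1T
    have key := image_norm_le_of_norm_deriv_right_lt_deriv_boundary'
      (f := fun s : ℝ => F (w + (s : ℂ) • ν) - x)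
      (f' := fun s : ℝ => fderiv ℂ F (w + (s : ℂ) • ν) ν) (a := 0) (b := s1)
      (B := fun s => L' * s) (B' := fun _ => L')
      (fun s hs => (hder s hs.1 (lt_of_le_of_lt hs.2 hs1T)).continuousAt.continuousWithinAt)
      (fun s hs => (hder s hs.1 (hs.2.trans hs1T)).hasDerivWithinAt)
      (by
        simp only [Complex.ofReal_zero, zero_smul, add_zero, mul_zero]
        rw [hwdef, hF.left x hx1, sub_self, norm_zero])
      (by fun_prop)
      (fun s _ => by
        simpa using ((hasDerivAt_id s).const_mul L').hasDerivWithinAt)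
      (by
        intro s hs heq
        have hsT : s < T := hs.2.trans hs1T
        have hX : ‖F (w + (s : ℂ) • ν)‖ ≤ 4 / 5 := by
          have e : F (w + (s : ℂ) • ν) = (F (w + (s : ℂ) • ν) - x) + x := by abel
          rw [e]
          refine (norm_add_le _ _).trans ?_
          have h1 : L' * s ≤ L' * T := mul_le_mul_of_nonneg_left hsT.le hL'0.le
          have h2 : ‖F (w + (s : ℂ) • ν) - x‖ = L' * s := heq
          linarith
        have hb := hbd _ hX
        rw [hF.right _ (hsΩ s hs.1 hsT)] at hb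
        exact lt_of_le_of_lt hb hLL')
    exact key (right_mem_Icc.2 hs10)
  -- the compact set
  have hK : IsCompact (f '' closedBall (0 : V n) (4 / 5)) := by
    refine (isCompact_closedBall (0 : V n) (4 / 5)).image_of_continuousOn ?_
    exact hF.hf.continuousOn.mono (closedBall_subset_ball (by norm_num))
  have hmem : ∀ s : ℝ, 0 ≤ s → s < T → w + (s : ℂ) • ν ∈ f '' closedBall (0 : V n) (4 / 5) := by
    intro s hs0 hsT
    refine ⟨F (w + (s : ℂ) • ν), ?_, hF.right _ (hsΩ s hs0 hsT)⟩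
    rw [mem_closedBall_zero_iff]
    have e : F (w + (s : ℂ) • ν) = (F (w + (s : ℂ) • ν) - x) + x := by abel
    rw [e]
    refine (norm_add_le _ _).trans ?_
    have h1 : L' * s ≤ L' * T := mul_le_mul_of_nonneg_left hsT.le hL'0.le
    have h2 := hbound s hs0 hsT
    linarith
  have hlim : Tendsto (fun s : ℝ => w + (s : ℂ) • ν) (𝓝[<] T) (𝓝 (w + (T : ℂ) • ν)) := by
    have hc : Continuous (fun s : ℝ => w + (s : ℂ) • ν) := by fun_prop
    exact (hc.tendsto T).mono_left nhdsWithin_le_nhds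
  have hTmem : w + (T : ℂ) • ν ∈ f '' closedBall (0 : V n) (4 / 5) := by
    refine hK.isClosed.mem_of_tendsto hlim ?_
    have : ∀ᶠ s : ℝ in 𝓝[<] T, s ∈ Ioo 0 T := Ioo_mem_nhdsLT hTpos
    filter_upwards [this] with s hs
    exact hmem s hs.1.le hs.2
  obtain ⟨y, hy, hyw⟩ := hTmem
  have hyΩ : w + (T : ℂ) • ν ∈ Ω := by
    rw [← hyw]
    exact hF.hfm (closedBall_subset_ball (by norm_num) hy)
  rw [hD.eq] at hyΩ
  have hz : ρ (w + (T : ℂ) • ν) = 0 := by
    refine (hH.zero _ (hseg T hTpos.le le_rfl)).2 ?_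
    rw [hhs T hTpos.le le_rfl, sub_self]
  have : ρ (w + (T : ℂ) • ν) < 0 := hyΩ
  linarith

end Pool.Agent.W181.SB
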